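import Pool.Agent.K6.H31.RU.Roots

/-!
# Polynomials with sparse coefficients modulo Fermat numbers; the order of the base
-/

set_option autoImplicit false

namespace Pool.Agent.K6.H31.RU

open Pool.Agent.K6.H50.SPF Pool.Agent.K6.H86.SD

/-- **Lagrange's bound.** -/
theorem lagrange {m g N s D : ℕ} {U : ℤ} (hgN : g ^ N = 2 ^ 2 ^ m) (c : Fin (D + 1) → ℤ)
    (hc : ∀ j, Sp g s U (c j)) (x : Fin (D + 1) → ℤ) (hx : ∀ i, Sp g s U (x i))
    (hne : ∀ i j, i ≠ j → ¬ (2 : ℤ) ^ 2 ^ m + 1 ∣ x i - x j)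
    (h : ∀ i, (2 : ℤ) ^ 2 ^ m + 1 ∣ ∑ j, c j * x i ^ (j : ℕ)) :
    (∀ j, (2 : ℤ) ^ 2 ^ m + 1 ∣ c j) ∨
    (2 : ℤ) ^ 2 ^ m ≤
      (g * (2 * U)) ^ ((D + 1) ^ 2 * (2 * (D + 1) ^ 2 + 1) ^ (2 * s)) := by
  classical
  by_contra hcon
  rw [not_or] at hcon
  obtain ⟨hc1, hc2⟩ := hcon
  push Not at hc1
  obtain ⟨j, hj⟩ := hc1
  apply hc2
  have hU : 1 ≤ U := by
    obtain ⟨S, u, a, b, e⟩ := hc j
    have hw : wt S u ≠ 0 := fun h0 => hj (by rw [← e, val_zero h0]; exact dvd_zero _)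
    have hw0 := wt_nonneg S u
    omega
  have hdet : (2 : ℤ) ^ 2 ^ m + 1 ∣ (Matrix.vandermonde x).det * c j := by
    have e1 : (Matrix.vandermonde x).det • c =
        (Matrix.vandermonde x).adjugate.mulVec ((Matrix.vandermonde x).mulVec c) := by
      rw [Matrix.mulVec_mulVec, Matrix.adjugate_mul, Matrix.smul_mulVec, Matrix.one_mulVec]
    have e2 := congrFun e1 j
    rw [Pi.smul_apply, smul_eq_mul] at e2
    rw [e2]
    change _ ∣ ∑ i, (Matrix.vandermonde x).adjugate j i * (Matrix.vandermonde x).mulVec c i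
    refine Finset.dvd_sum fun i _ => ?_
    refine Dvd.dvd.mul_left ?_ _
    have e3 : (Matrix.vandermonde x).mulVec c i = ∑ j, c j * x i ^ (j : ℕ) := by
      simp only [Matrix.mulVec, dotProduct, Matrix.vandermonde_apply]
      exact Finset.sum_congr rfl fun _ _ => mul_comm _ _
    rw [e3]
    exact h i
  set I : Finset ((_ : Fin (D + 1)) × Fin (D + 1)) := Finset.univ.sigma fun i => Finset.Ioi i
    with hI
  set f : Option ((_ : Fin (D + 1)) × Fin (D + 1)) → ℤ := fun o => o.elim (c j)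
    fun p => x p.2 - x p.1 with hf
  have hprod : ∏ o ∈ Finset.insertNone I, f o = (Matrix.vandermonde x).det * c j := by
    rw [Finset.prod_insertNone, Matrix.det_vandermonde, hI, Finset.prod_sigma, mul_comm]
    rfl
  have hcard : (Finset.insertNone I).card ≤ (D + 1) ^ 2 := by
    rw [Finset.card_insertNone]
    have h1 : I.card ≤ (Finset.univ : Finset (Fin (D + 1))).offDiag.card := by
      refine Finset.card_le_card_of_injOn (fun p => (p.1, p.2)) ?_ ?_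
      · intro p hp
        have hp' : p.2 ∈ Finset.Ioi p.1 := (Finset.mem_sigma.1 hp).2
        rw [Finset.mem_Ioi] at hp'
        exact Finset.mem_coe.2 (Finset.mem_offDiag.2 ⟨Finset.mem_univ _, Finset.mem_univ _, hp'.ne⟩)
      · rintro ⟨a, b⟩ _ ⟨a', b'⟩ _ hh
        simp only [Prod.mk.injEq] at hh
        obtain ⟨rfl, rfl⟩ := hh
        rfl
    rw [Finset.offDiag_card, Finset.card_univ, Fintype.card_fin] at h1
    have h2 : (D + 1) * (D + 1) - (D + 1) = (D + 1) * D := by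
      rw [Nat.mul_succ, Nat.add_sub_cancel]
    rw [h2] at h1
    nlinarith
  have hsp : ∀ o ∈ Finset.insertNone I, Sp g (2 * s) (2 * U) (f o) := by
    intro o _
    rcases o with _ | p
    · exact (hc j).mono (by omega) (by linarith)
    · exact ((hx p.2).sub (hx p.1)).mono (by omega) (by linarith)
  rcases euclid_set hgN (Finset.insertNone I) f hsp (by rw [hprod]; exact hdet) with
    ⟨o, ho, hdo⟩ | hle
  · exfalso
    rcases o with _ | p
    · exact hj hdo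
    · have hp : p ∈ I := Finset.some_mem_insertNone.1 ho
      have hp' : p.2 ∈ Finset.Ioi p.1 := (Finset.mem_sigma.1 hp).2
      rw [Finset.mem_Ioi] at hp'
      exact hne p.2 p.1 hp'.ne' hdo
  · refine hle.trans (pow_le_pow_right₀ ?_ ?_)
    · obtain ⟨hg, -⟩ := base_aux hgN
      have hg1 : (1 : ℤ) ≤ g := by exact_mod_cast (by omega : 1 ≤ g)
      nlinarith
    · exact Nat.mul_le_mul hcard (Nat.pow_le_pow_left (by omega) _)

/-- The order of the base. -/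
theorem order_base {m g N e : ℕ} (hgN : g ^ N = 2 ^ 2 ^ m)
    (h : (2 : ℤ) ^ 2 ^ m + 1 ∣ (g : ℤ) ^ e - 1) : 2 * N ∣ e := by
  have hc : (2 : ℤ) ^ 2 ^ m = (g : ℤ) ^ N := by exact_mod_cast hgN.symm
  have hF : (1 : ℤ) < 2 ^ 2 ^ m + 1 := by
    have : (0 : ℤ) < 2 ^ 2 ^ m := by positivity
    linarith
  by_contra hnd
  have hr : 0 < e % (2 * N) := by
    rcases Nat.eq_zero_or_pos (e % (2 * N)) with h0 | h0
    · exact absurd (Nat.dvd_of_mod_eq_zero h0) hnd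
    · exact h0
  have hN : 0 < 2 * N := by
    have := (base_aux hgN).2
    omega
  have h1 : (2 : ℤ) ^ 2 ^ m + 1 ∣ (g : ℤ) ^ (2 * N) - 1 := by
    rw [hc]
    exact ⟨(g : ℤ) ^ N - 1, by ring⟩
  have h2 : (2 : ℤ) ^ 2 ^ m + 1 ∣ (g : ℤ) ^ (2 * N * (e / (2 * N))) - 1 := by
    rw [pow_mul]
    exact h1.trans (sub_one_dvd_pow_sub_one _ _)
  have h3 : (2 : ℤ) ^ 2 ^ m + 1 ∣ (g : ℤ) ^ (e % (2 * N)) - 1 := by
    have e1 : (g : ℤ) ^ e = (g : ℤ) ^ (2 * N * (e / (2 * N))) * (g : ℤ) ^ (e % (2 * N)) := by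
      rw [← pow_add, Nat.div_add_mod]
    have e2 : (g : ℤ) ^ (e % (2 * N)) - 1 = ((g : ℤ) ^ e - 1) -
        ((g : ℤ) ^ (2 * N * (e / (2 * N))) - 1) * (g : ℤ) ^ (e % (2 * N)) := by
      rw [e1]
      ring
    rw [e2]
    exact dvd_sub h (Dvd.dvd.mul_right h2 _)
  have hcop := coprime_pow_sub_one (p := e % (2 * N)) hgN hr (Nat.mod_lt _ hN)
  have h4 := hcop.isUnit_of_dvd' h3 (dvd_refl _)
  rw [Int.isUnit_iff] at h4
  omega

/-- Reduction of the exponent. -/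
theorem reduce {m g N k i : ℕ} (hgN : g ^ N = 2 ^ 2 ^ m) {x y : ℤ}
    (h1 : (2 : ℤ) ^ 2 ^ m + 1 ∣ x - (g : ℤ) ^ i * y)
    (h2 : (2 : ℤ) ^ 2 ^ m + 1 ∣ (g : ℤ) ^ (i * k) - 1) :
    ∃ i < 2 * N, 2 * N ∣ i * k ∧ (2 : ℤ) ^ 2 ^ m + 1 ∣ x - (g : ℤ) ^ i * y := by
  have hc : (2 : ℤ) ^ 2 ^ m = (g : ℤ) ^ N := by exact_mod_cast hgN.symm
  have hN : 0 < 2 * N := by
    have := (base_aux hgN).2
    omega
  have h3 := order_base hgN h2
  refine ⟨i % (2 * N), Nat.mod_lt _ hN, ?_, ?_⟩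
  · have h4 : i % (2 * N) * k ≡ i * k [MOD 2 * N] := (Nat.mod_modEq i _).mul_right k
    exact (Nat.modEq_zero_iff_dvd.1 (h4.trans (Nat.modEq_zero_iff_dvd.2 h3)))
  · have h5 : (2 : ℤ) ^ 2 ^ m + 1 ∣ (g : ℤ) ^ (2 * N * (i / (2 * N))) - 1 := by
      rw [pow_mul, hc]
      have : (g : ℤ) ^ N + 1 ∣ (g : ℤ) ^ (2 * N) - 1 := ⟨(g : ℤ) ^ N - 1, by ring⟩
      exact this.trans (sub_one_dvd_pow_sub_one _ _)
    have e1 : (g : ℤ) ^ i = (g : ℤ) ^ (2 * N * (i / (2 * N))) * (g : ℤ) ^ (i % (2 * N)) := by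
      rw [← pow_add, Nat.div_add_mod]
    have e2 : x - (g : ℤ) ^ (i % (2 * N)) * y = (x - (g : ℤ) ^ i * y) +
        ((g : ℤ) ^ (2 * N * (i / (2 * N))) - 1) * ((g : ℤ) ^ (i % (2 * N)) * y) := by
      rw [e1]
      ring
    rw [e2]
    exact dvd_add h1 (Dvd.dvd.mul_right h5 _)

end Pool.Agent.K6.H31.RU
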