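import Pool.Agent.K6.H31.RU.Sp

/-!
# The odd part: geometric sums of odd prime length modulo Fermat numbers
-/

set_option autoImplicit false

namespace Pool.Agent.K6.H31.RU

open Pool.Agent.K6.H50.SPF Pool.Agent.K6.H86.SD

/-- A prime below `2 N` does not divide the Fermat number. -/
theorem not_dvd_small {m g N q : ℕ} (hgN : g ^ N = 2 ^ 2 ^ m) (hq : q.Prime) (hq2 : Odd q)
    (hqN : q < 2 * N) : ¬ q ∣ 2 ^ 2 ^ m + 1 := by
  intro hd
  have hq3 : 2 < q := by
    rcases hq2 with ⟨r, hr⟩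
    have := hq.two_le
    omega
  have hcop := coprime_pow_sub_one (p := q - 1) hgN (by omega) (by omega)
  have hg2 : ∃ r, g = 2 ^ r := by
    obtain ⟨hg, hN⟩ := base_aux hgN
    obtain ⟨r, -, hr⟩ := (Nat.dvd_prime_pow Nat.prime_two).1
      (show g ∣ 2 ^ 2 ^ m by rw [← hgN]; exact dvd_pow_self g (by omega))
    exact ⟨r, hr⟩
  obtain ⟨r, hr⟩ := hg2
  have hqg : ¬ q ∣ g := by
    intro h
    rw [hr] at h
    have := (Nat.prime_dvd_prime_iff_eq hq Nat.prime_two).1 (hq.dvd_of_dvd_pow h)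
    omega
  haveI : Fact q.Prime := ⟨hq⟩
  have h1 : ((g : ZMod q)) ^ (q - 1) = 1 := by
    apply ZMod.pow_card_sub_one_eq_one
    intro h0
    exact hqg ((ZMod.natCast_eq_zero_iff g q).1 h0)
  have h2 : (q : ℤ) ∣ (g : ℤ) ^ (q - 1) - 1 := by
    rw [← ZMod.intCast_zmod_eq_zero_iff_dvd]
    push_cast
    rw [h1, sub_self]
  have h3 : (q : ℤ) ∣ (2 : ℤ) ^ 2 ^ m + 1 := by exact_mod_cast hd
  have h4 := hcop.isUnit_of_dvd' h2 h3
  rw [Int.isUnit_iff] at h4
  rcases h4 with h4 | h4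
  · have : q = 1 := by exact_mod_cast h4
    omega
  · omega

/-- A natural number all whose prime factors are `1` modulo `q` is `1` modulo `q`. -/
theorem modEq_one {q : ℕ} (F : ℕ) (hF : F ≠ 0)
    (h : ∀ p, p.Prime → p ∣ F → p ≡ 1 [MOD q]) : F ≡ 1 [MOD q] := by
  rw [← Nat.prod_primeFactorsList hF]
  have key : ∀ L : List ℕ, (∀ p ∈ L, p ≡ 1 [MOD q]) → L.prod ≡ 1 [MOD q] := by
    intro L
    induction L with
    | nil => intro _; exact Nat.ModEq.rfl
    | cons a L ih =>
      intro hL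
      rw [List.prod_cons]
      have h1 := hL a (by simp)
      have h2 := ih fun p hp => hL p (by simp [hp])
      simpa using h1.mul h2
  exact key _ fun p hp => h p (Nat.prime_of_mem_primeFactorsList hp)
    (Nat.dvd_of_mem_primeFactorsList hp)

/-- The geometric sum of odd prime length. -/
theorem geom_not_dvd {m g N q : ℕ} (hgN : g ^ N = 2 ^ 2 ^ m) (hq : q.Prime) (hq2 : Odd q)
    (hqN : q < 2 * N) {x y : ℤ} (hy : IsCoprime y ((2 : ℤ) ^ 2 ^ m + 1)) :
    ¬ (2 : ℤ) ^ 2 ^ m + 1 ∣ ∑ i ∈ Finset.range q, x ^ i * y ^ (q - 1 - i) := by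
  intro hd
  have hmod : 2 ^ 2 ^ m + 1 ≡ 1 [MOD q] := by
    refine modEq_one _ (by positivity) fun p hp hpF => ?_
    haveI : Fact p.Prime := ⟨hp⟩
    have hpZ : (p : ℤ) ∣ (2 : ℤ) ^ 2 ^ m + 1 := by exact_mod_cast hpF
    have hsum : ∑ i ∈ Finset.range q, (x : ZMod p) ^ i * (y : ZMod p) ^ (q - 1 - i) = 0 := by
      have := (ZMod.intCast_zmod_eq_zero_iff_dvd _ p).2 (hpZ.trans hd)
      push_cast at this
      exact this
    have hy0 : (y : ZMod p) ≠ 0 := by
      intro h0
      have h1 : (p : ℤ) ∣ y := (ZMod.intCast_zmod_eq_zero_iff_dvd y p).1 h0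
      have h2 := hy.isUnit_of_dvd' h1 hpZ
      exact hp.one_lt.ne' (by
        rw [Int.isUnit_iff] at h2
        omega)
    have hpow : (x : ZMod p) ^ q = (y : ZMod p) ^ q := by
      have h1 := (Commute.all (x : ZMod p) (y : ZMod p)).geom_sum₂_mul q
      rw [hsum, zero_mul] at h1
      exact (sub_eq_zero.1 h1.symm)
    set z : ZMod p := x / y with hz
    have hzq : z ^ q = 1 := by
      rw [hz, div_pow, hpow, div_self (pow_ne_zero _ hy0)]
    have hz1 : z ≠ 1 := by
      intro h1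
      have hxy : (x : ZMod p) = y := by
        rw [hz, div_eq_one_iff_eq hy0] at h1
        exact h1
      rw [hxy] at hsum
      have h2 : ∀ i ∈ Finset.range q, (y : ZMod p) ^ i * (y : ZMod p) ^ (q - 1 - i) =
          (y : ZMod p) ^ (q - 1) := by
        intro i hi
        rw [Finset.mem_range] at hi
        rw [← pow_add]
        congr 1
        omega
      rw [Finset.sum_congr rfl h2, Finset.sum_const, Finset.card_range, nsmul_eq_mul] at hsum
      have h3 := (mul_eq_zero.1 hsum).resolve_right (pow_ne_zero _ hy0)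
      have h4 : p ∣ q := (ZMod.natCast_eq_zero_iff q p).1 h3
      have h5 : p = q := (Nat.prime_dvd_prime_iff_eq hp hq).1 h4
      rw [h5] at hpF
      exact not_dvd_small hgN hq hq2 hqN hpF
    haveI : Fact q.Prime := ⟨hq⟩
    have hord : orderOf z = q := orderOf_eq_prime hzq hz1
    have hz0 : z ≠ 0 := by
      intro h0
      rw [h0, zero_pow hq.ne_zero] at hzq
      exact zero_ne_one hzq
    have h6 : q ∣ p - 1 := by
      have := ZMod.orderOf_dvd_card_sub_one hz0
      rwa [hord] at this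
    exact ((Nat.modEq_iff_dvd' hp.one_lt.le).2 h6).symm
  have h7 : q ∣ 2 ^ 2 ^ m := by
    have := (Nat.modEq_iff_dvd' (by omega : 1 ≤ 2 ^ 2 ^ m + 1)).1 hmod.symm
    simpa using this
  have h8 := (Nat.prime_dvd_prime_iff_eq hq Nat.prime_two).1 (hq.dvd_of_dvd_pow h7)
  rw [h8] at hq2
  exact absurd hq2 (by decide)

end Pool.Agent.K6.H31.RU
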