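import Pool.Agent.K6.H31.RU.Odd

/-!
# Sparse numbers with equal powers modulo Fermat numbers
-/

set_option autoImplicit false

namespace Pool.Agent.K6.H31.RU

open Pool.Agent.K6.H50.SPF Pool.Agent.K6.H86.SD

theorem le_aux {s k M : ℕ} (hs : 1 ≤ s) (hM : M ≤ k) (hk : 2 ≤ k) :
    s ^ M + s ^ M ≤ k * s ^ k := by
  have h1 : s ^ M ≤ s ^ k := Nat.pow_le_pow_right hs hM
  nlinarith [Nat.zero_le (s ^ k)]

theorem le_auxZ {k M : ℕ} {U : ℤ} (hU : 1 ≤ U) (hM : M ≤ k) (hk : 2 ≤ k) :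
    U ^ M + U ^ M ≤ k * U ^ k := by
  have h1 : U ^ M ≤ U ^ k := pow_le_pow_right₀ hU hM
  have h2 : (2 : ℤ) ≤ k := by exact_mod_cast hk
  have h3 : (0 : ℤ) ≤ U ^ k := by positivity
  nlinarith

/-- The part of two. -/
theorem two_part {m g N k s : ℕ} {U : ℤ} (hgN : g ^ N = 2 ^ 2 ^ m) (hs : 1 ≤ s) (hU : 1 ≤ U)
    (j : ℕ) : 2 ^ j ≤ k → 2 ^ j ∣ 2 * N → ∀ x y : ℤ, Sp g s U x → Sp g s U y →
    (2 : ℤ) ^ 2 ^ m + 1 ∣ x ^ 2 ^ j - y ^ 2 ^ j →
    (∃ i : ℕ, (2 : ℤ) ^ 2 ^ m + 1 ∣ x - (g : ℤ) ^ i * y ∧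
      (2 : ℤ) ^ 2 ^ m + 1 ∣ (g : ℤ) ^ (i * 2 ^ j) - 1) ∨
    (2 : ℤ) ^ 2 ^ m ≤ (g * (k * U ^ k)) ^ (2 * 5 ^ (k * s ^ k)) := by
  have hc : (2 : ℤ) ^ 2 ^ m = (g : ℤ) ^ N := by exact_mod_cast hgN.symm
  induction j with
  | zero =>
    intro _ _ x y _ _ h
    left
    refine ⟨0, by simpa using h, by simp⟩
  | succ j ih =>
    intro hk hN x y hx hy h
    have hk2 : 2 * 2 ^ j ≤ k := by rw [pow_succ] at hk; omega
    have hM : 2 ^ j ≤ k := by omega
    have h1 : 1 ≤ 2 ^ j := Nat.one_le_two_pow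
    have hMN : 2 ^ j ∣ N := by
      rw [pow_succ, mul_comm] at hN
      exact Nat.dvd_of_mul_dvd_mul_left (by norm_num) hN
    have hMN2 : 2 ^ j ∣ 2 * N := hMN.mul_left 2
    have e : x ^ 2 ^ (j + 1) - y ^ 2 ^ (j + 1) =
        (x ^ 2 ^ j - y ^ 2 ^ j) * (x ^ 2 ^ j + y ^ 2 ^ j) := by
      rw [pow_succ 2 j, pow_mul, pow_mul]
      ring
    rw [e] at h
    have s1 : Sp g (k * s ^ k) (k * U ^ k) (x ^ 2 ^ j - y ^ 2 ^ j) :=
      ((hx.pow _).sub (hy.pow _)).mono (le_aux hs hM (by omega)) (le_auxZ hU hM (by omega))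
    have s2 : Sp g (k * s ^ k) (k * U ^ k) (x ^ 2 ^ j + y ^ 2 ^ j) :=
      ((hx.pow _).add (hy.pow _)).mono (le_aux hs hM (by omega)) (le_auxZ hU hM (by omega))
    rcases euclid_two hgN s1 s2 h with h2 | h2 | h2
    · rcases ih hM hMN2 x y hx hy h2 with ⟨i, hi, hi2⟩ | h3
      · left
        refine ⟨i, hi, hi2.trans ?_⟩
        rw [pow_succ 2 j, ← mul_assoc, pow_mul _ _ 2]
        exact sub_one_dvd_pow_sub_one _ _
      · exact Or.inr h3
    · obtain ⟨c, hcN⟩ := hMN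
      have h3 : (2 : ℤ) ^ 2 ^ m + 1 ∣ x ^ 2 ^ j - ((g : ℤ) ^ c * y) ^ 2 ^ j := by
        have e2 : x ^ 2 ^ j - ((g : ℤ) ^ c * y) ^ 2 ^ j =
            (x ^ 2 ^ j + y ^ 2 ^ j) - ((2 : ℤ) ^ 2 ^ m + 1) * y ^ 2 ^ j := by
          rw [mul_pow, ← pow_mul, mul_comm c, ← hcN, hc]
          ring
        rw [e2]
        exact dvd_sub h2 (dvd_mul_right _ _)
      rcases ih hM hMN2 x _ hx (hy.shift c) h3 with ⟨i, hi, hi2⟩ | h4
      · left
        refine ⟨i + c, ?_, ?_⟩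
        · rw [pow_add, mul_assoc]
          exact hi
        · have e3 : (g : ℤ) ^ ((i + c) * 2 ^ (j + 1)) =
              ((g : ℤ) ^ (i * 2 ^ j)) ^ 2 * ((g : ℤ) ^ N) ^ 2 := by
            rw [← pow_mul, ← pow_mul, ← pow_add]
            congr 1
            rw [hcN, pow_succ]
            ring
          have e4 : ((g : ℤ) ^ (i * 2 ^ j)) ^ 2 * ((g : ℤ) ^ N) ^ 2 - 1 =
              (((g : ℤ) ^ (i * 2 ^ j)) ^ 2 - 1) * ((g : ℤ) ^ N) ^ 2 +
              ((g : ℤ) ^ N + 1) * ((g : ℤ) ^ N - 1) := by ring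
          rw [e3, e4, ← hc]
          refine dvd_add (Dvd.dvd.mul_right (hi2.trans (sub_one_dvd_pow_sub_one _ _)) _)
            (dvd_mul_right _ _)
      · exact Or.inr h4
    · exact Or.inr h2

theorem roots_small {m g N s K : ℕ} {U : ℤ} (hgN : g ^ N = 2 ^ 2 ^ m) (hs : 1 ≤ s) (hU : 1 ≤ U)
    (k : ℕ) : 1 ≤ k → k ≤ K → k < 2 * N → ∀ x y : ℤ, Sp g s U x → Sp g s U y →
    IsCoprime y ((2 : ℤ) ^ 2 ^ m + 1) → (2 : ℤ) ^ 2 ^ m + 1 ∣ x ^ k - y ^ k →
    (∃ i : ℕ, (2 : ℤ) ^ 2 ^ m + 1 ∣ x - (g : ℤ) ^ i * y ∧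
      (2 : ℤ) ^ 2 ^ m + 1 ∣ (g : ℤ) ^ (i * k) - 1) ∨
    (2 : ℤ) ^ 2 ^ m ≤ (g * (K * U ^ K)) ^ (2 * 5 ^ (K * s ^ K)) := by
  induction k using Nat.strong_induction_on with
  | _ k ih =>
    intro hk1 hkK hkN x y hx hy hcop h
    by_cases hodd : ∃ q, q.Prime ∧ Odd q ∧ q ∣ k
    · obtain ⟨q, hq, hqo, k', rfl⟩ := hodd
      have hk'1 : 1 ≤ k' := by
        rcases Nat.eq_zero_or_pos k' with h0 | h0
        · subst h0; omega
        · exact h0
      have hq3 : 3 ≤ q := by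
        have := hq.two_le
        rcases hqo with ⟨r, hr⟩
        omega
      have hlt : k' < q * k' := by nlinarith
      have hqN : q < 2 * N := by nlinarith
      have e : x ^ (q * k') - y ^ (q * k') =
          (∑ i ∈ Finset.range q, (x ^ k') ^ i * (y ^ k') ^ (q - 1 - i)) *
            (x ^ k' - y ^ k') := by
        rw [(Commute.all (x ^ k') (y ^ k')).geom_sum₂_mul q, ← pow_mul, ← pow_mul, mul_comm q]
      rw [e] at h
      have s1 : Sp g (K * s ^ K) (K * U ^ K) (x ^ k' - y ^ k') :=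
        ((hx.pow _).sub (hy.pow _)).mono (le_aux hs (by omega) (by omega))
          (le_auxZ hU (by omega) (by omega))
      have s2 : Sp g (K * s ^ K) (K * U ^ K)
          (∑ i ∈ Finset.range q, (x ^ k') ^ i * (y ^ k') ^ (q - 1 - i)) := by
        have h1 : ∀ i < q, Sp g (s ^ K) (U ^ K) ((x ^ k') ^ i * (y ^ k') ^ (q - 1 - i)) := by
          intro i hi
          have h2 := ((hx.pow k').pow i).mul ((hy.pow k').pow (q - 1 - i))
          have hexp : k' * i + k' * (q - 1 - i) ≤ K := by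
            rw [← mul_add]
            calc k' * (i + (q - 1 - i)) ≤ k' * q := Nat.mul_le_mul_left _ (by omega)
              _ ≤ K := by rw [mul_comm]; exact hkK
          refine h2.mono ?_ ?_
          · rw [← pow_mul, ← pow_mul, ← pow_add]
            exact Nat.pow_le_pow_right hs hexp
          · rw [← pow_mul, ← pow_mul, ← pow_add]
            exact pow_le_pow_right₀ hU hexp
        have hqK : q ≤ K := by nlinarith
        refine (sp_sum q _ h1).mono (Nat.mul_le_mul_right _ hqK) ?_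
        have h3 : (q : ℤ) ≤ K := by exact_mod_cast hqK
        have h4 : (0 : ℤ) ≤ U ^ K := by positivity
        exact mul_le_mul_of_nonneg_right h3 h4
      rcases euclid_two hgN s2 s1 h with h2 | h2 | h2
      · exact absurd h2 (geom_not_dvd hgN hq hqo hqN (hcop.pow_left))
      · rcases ih k' hlt hk'1 (by omega) (by omega) x y hx hy hcop h2 with ⟨i, hi, hi2⟩ | h3
        · left
          refine ⟨i, hi, hi2.trans ?_⟩
          rw [show i * (q * k') = (i * k') * q by ring, pow_mul _ _ q]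
          exact sub_one_dvd_pow_sub_one _ _
        · exact Or.inr h3
      · exact Or.inr h2
    · have hpow : ∃ j, k = 2 ^ j := by
        refine ⟨_, Nat.eq_prime_pow_of_unique_prime_dvd (by omega) ?_⟩
        intro d hd hdk
        by_contra hne
        exact hodd ⟨d, hd, hd.odd_of_ne_two hne, hdk⟩
      obtain ⟨j, rfl⟩ := hpow
      have hNp : ∃ a, N = 2 ^ a := by
        obtain ⟨hg, hN⟩ := base_aux hgN
        obtain ⟨r, -, hr⟩ := (Nat.dvd_prime_pow Nat.prime_two).1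
          (show g ∣ 2 ^ 2 ^ m by rw [← hgN]; exact dvd_pow_self g (by omega))
        rw [hr, ← pow_mul] at hgN
        have h3 := Nat.pow_right_injective (le_refl 2) hgN
        obtain ⟨a, -, ha⟩ := (Nat.dvd_prime_pow Nat.prime_two).1
          (show N ∣ 2 ^ m from ⟨r, by rw [← h3]; ring⟩)
        exact ⟨a, ha⟩
      obtain ⟨a, ha⟩ := hNp
      have hdvd : 2 ^ j ∣ 2 * N := by
        rw [ha, ← pow_succ']
        rw [ha, ← pow_succ'] at hkN
        exact pow_dvd_pow 2 ((Nat.pow_lt_pow_iff_right (by norm_num)).1 hkN).le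
      exact two_part hgN hs hU j hkK hdvd x y hx hy h

/-- **Sparse numbers with congruent powers.** -/
theorem roots {m g N s k : ℕ} {U : ℤ} (hgN : g ^ N = 2 ^ 2 ^ m) (hk : 1 ≤ k)
    {x y : ℤ} (hx : Sp g s U x) (hy : Sp g s U y)
    (hcop : IsCoprime y ((2 : ℤ) ^ 2 ^ m + 1)) (h : (2 : ℤ) ^ 2 ^ m + 1 ∣ x ^ k - y ^ k) :
    (∃ i : ℕ, (2 : ℤ) ^ 2 ^ m + 1 ∣ x - (g : ℤ) ^ i * y ∧
      (2 : ℤ) ^ 2 ^ m + 1 ∣ (g : ℤ) ^ (i * k) - 1) ∨
    (2 : ℤ) ^ 2 ^ m ≤ (g * (k * U ^ k)) ^ (2 * 5 ^ (k * s ^ k)) := by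
  have hF : (1 : ℤ) < 2 ^ 2 ^ m + 1 := by
    have : (0 : ℤ) < 2 ^ 2 ^ m := by positivity
    linarith
  have hy0 : y ≠ 0 := by
    rintro rfl
    rw [isCoprime_zero_left, Int.isUnit_iff] at hcop
    omega
  have hUs : 1 ≤ s ∧ 1 ≤ U := by
    obtain ⟨S, u, a, b, c⟩ := hy
    have hw : wt S u ≠ 0 := fun h0 => hy0 (by rw [← c]; exact val_zero h0)
    have hw0 := wt_nonneg S u
    constructor
    · by_contra hs
      apply hw
      have : S = ∅ := Finset.card_eq_zero.1 (by omega)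
      rw [this]
      simp [wt]
    · omega
  obtain ⟨hs, hU⟩ := hUs
  rcases Nat.lt_or_ge k (2 * N) with hkN | hkN
  · exact roots_small hgN hs hU k hk le_rfl hkN x y hx hy hcop h
  · right
    have hc : (2 : ℤ) ^ 2 ^ m = (g : ℤ) ^ N := by exact_mod_cast hgN.symm
    obtain ⟨hg, hN⟩ := base_aux hgN
    have hg1 : (1 : ℤ) ≤ g := by exact_mod_cast (by omega : 1 ≤ g)
    have hkZ : (1 : ℤ) ≤ k := by exact_mod_cast hk
    have hUk : (1 : ℤ) ≤ U ^ k := one_le_pow₀ hU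
    have h1 : (1 : ℤ) ≤ k * U ^ k := by nlinarith
    have h2 : (g : ℤ) ≤ g * (k * U ^ k) := by nlinarith
    have h3 : N ≤ 2 * 5 ^ (k * s ^ k) := by
      have h4 : k ≤ k * s ^ k := Nat.le_mul_of_pos_right _ (by positivity)
      have h5 : k * s ^ k < 5 ^ (k * s ^ k) := Nat.lt_pow_self (by norm_num)
      omega
    rw [hc]
    calc (g : ℤ) ^ N ≤ (g * (k * U ^ k)) ^ N := pow_le_pow_left₀ (by linarith) h2 _
      _ ≤ (g * (k * U ^ k)) ^ (2 * 5 ^ (k * s ^ k)) :=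
          pow_le_pow_right₀ (by linarith) h3

end Pool.Agent.K6.H31.RU
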