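import Pool.Agent.K6.H86.SD.Fermat

/-!
# Sparse integers: sums and products; Euclid's lemma for Fermat numbers
-/

set_option autoImplicit false

namespace Pool.Agent.K6.H31.RU

open Pool.Agent.K6.H50.SPF Pool.Agent.K6.H86.SD

/-- `x` has an expansion in base `g` with at most `s` digits of total weight at most `U`. -/
def Sp (g s : ℕ) (U x : ℤ) : Prop :=
  ∃ (S : Finset ℕ) (u : ℕ → ℤ), S.card ≤ s ∧ wt S u ≤ U ∧ val g S u = x

theorem sp_terms {ι : Type*} (g : ℕ) (I : Finset ι) (c : ι → ℤ) (e : ι → ℕ) :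
    Sp g I.card (∑ i ∈ I, |c i|) (∑ i ∈ I, c i * (g : ℤ) ^ e i) := by
  classical
  refine ⟨I.image e, fun a => ∑ i ∈ I.filter (fun i => e i = a), c i, Finset.card_image_le, ?_, ?_⟩
  · unfold wt
    calc ∑ a ∈ I.image e, |∑ i ∈ I.filter (fun i => e i = a), c i|
        ≤ ∑ a ∈ I.image e, ∑ i ∈ I.filter (fun i => e i = a), |c i| :=
          Finset.sum_le_sum fun a _ => Finset.abs_sum_le_sum_abs _ _
      _ = ∑ i ∈ I, |c i| :=
          Finset.sum_fiberwise_of_maps_to (fun i hi => Finset.mem_image_of_mem e hi) _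
  · unfold val
    calc ∑ a ∈ I.image e, (∑ i ∈ I.filter (fun i => e i = a), c i) * (g : ℤ) ^ a
        = ∑ a ∈ I.image e, ∑ i ∈ I.filter (fun i => e i = a), c i * (g : ℤ) ^ e i := by
          refine Finset.sum_congr rfl fun a _ => ?_
          rw [Finset.sum_mul]
          refine Finset.sum_congr rfl fun i hi => ?_
          rw [(Finset.mem_filter.1 hi).2]
      _ = ∑ i ∈ I, c i * (g : ℤ) ^ e i :=
          Finset.sum_fiberwise_of_maps_to (fun i hi => Finset.mem_image_of_mem e hi) _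

theorem Sp.mono {g s t : ℕ} {U V x : ℤ} (h : Sp g s U x) (h1 : s ≤ t) (h2 : U ≤ V) :
    Sp g t V x := by
  obtain ⟨S, u, a, b, c⟩ := h
  exact ⟨S, u, a.trans h1, b.trans h2, c⟩

theorem Sp.mul {g s t : ℕ} {U V x y : ℤ} (h : Sp g s U x) (h' : Sp g t V y) :
    Sp g (s * t) (U * V) (x * y) := by
  obtain ⟨S, u, a, b, rfl⟩ := h
  obtain ⟨T, v, a', b', rfl⟩ := h'
  have h1 := sp_terms g (S ×ˢ T) (fun p => u p.1 * v p.2) (fun p => p.1 + p.2)
  have e1 : ∑ p ∈ S ×ˢ T, u p.1 * v p.2 * (g : ℤ) ^ (p.1 + p.2) = val g S u * val g T v := by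
    unfold val
    rw [Finset.sum_mul_sum, Finset.sum_product]
    refine Finset.sum_congr rfl fun i _ => Finset.sum_congr rfl fun j _ => ?_
    rw [pow_add]
    ring
  have e2 : ∑ p ∈ S ×ˢ T, |u p.1 * v p.2| = wt S u * wt T v := by
    unfold wt
    rw [Finset.sum_mul_sum, Finset.sum_product]
    refine Finset.sum_congr rfl fun i _ => Finset.sum_congr rfl fun j _ => ?_
    rw [abs_mul]
  rw [e1, e2] at h1
  refine h1.mono ?_ ?_
  · rw [Finset.card_product]
    exact Nat.mul_le_mul a a'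
  · exact mul_le_mul b b' (wt_nonneg _ _) ((wt_nonneg _ _).trans b)

theorem Sp.add {g s t : ℕ} {U V x y : ℤ} (h : Sp g s U x) (h' : Sp g t V y) :
    Sp g (s + t) (U + V) (x + y) := by
  obtain ⟨S, u, a, b, rfl⟩ := h
  obtain ⟨T, v, a', b', rfl⟩ := h'
  have h1 := sp_terms g (S.disjSum T) (Sum.elim u v) (Sum.elim id id)
  have e1 : ∑ p ∈ S.disjSum T, (Sum.elim u v) p * (g : ℤ) ^ ((Sum.elim id id : ℕ ⊕ ℕ → ℕ) p) =
      val g S u + val g T v := by
    unfold val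
    rw [Finset.sum_disjSum]
    simp
  have e2 : ∑ p ∈ S.disjSum T, |(Sum.elim u v) p| = wt S u + wt T v := by
    unfold wt
    rw [Finset.sum_disjSum]
    simp
  rw [e1, e2] at h1
  refine h1.mono ?_ (add_le_add b b')
  rw [Finset.card_disjSum]
  exact add_le_add a a'

theorem Sp.neg {g s : ℕ} {U x : ℤ} (h : Sp g s U x) : Sp g s U (-x) := by
  obtain ⟨S, u, a, b, rfl⟩ := h
  refine ⟨S, fun i => -u i, a, ?_, ?_⟩
  · unfold wt at b ⊢
    simpa using b
  · unfold val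
    simp

theorem Sp.sub {g s t : ℕ} {U V x y : ℤ} (h : Sp g s U x) (h' : Sp g t V y) :
    Sp g (s + t) (U + V) (x - y) := by
  rw [sub_eq_add_neg]
  exact h.add h'.neg

theorem sp_one (g : ℕ) : Sp g 1 1 1 :=
  ⟨{0}, fun _ => 1, by simp, by simp [wt], by simp [val]⟩

theorem sp_zero (g : ℕ) : Sp g 0 0 0 :=
  ⟨∅, fun _ => 0, by simp, by simp [wt], by simp [val]⟩

theorem sp_base (g c : ℕ) : Sp g 1 1 ((g : ℤ) ^ c) :=
  ⟨{c}, fun _ => 1, by simp, by simp [wt], by simp [val]⟩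

theorem Sp.pow {g s : ℕ} {U x : ℤ} (h : Sp g s U x) (k : ℕ) : Sp g (s ^ k) (U ^ k) (x ^ k) := by
  induction k with
  | zero => simpa using sp_one g
  | succ k ih =>
    rw [pow_succ, pow_succ, pow_succ]
    exact ih.mul h

theorem Sp.shift {g s : ℕ} {U x : ℤ} (h : Sp g s U x) (c : ℕ) :
    Sp g s U ((g : ℤ) ^ c * x) := by
  have := (sp_base g c).mul h
  rwa [one_mul, one_mul] at this

theorem sp_sum {g t : ℕ} {V : ℤ} (q : ℕ) (x : ℕ → ℤ) (h : ∀ i < q, Sp g t V (x i)) :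
    Sp g (q * t) (q * V) (∑ i ∈ Finset.range q, x i) := by
  induction q with
  | zero => simpa using sp_zero g
  | succ q ih =>
    rw [Finset.sum_range_succ]
    have := (ih fun i hi => h i (by omega)).add (h q (by omega))
    refine this.mono (le_of_eq (by ring)) (le_of_eq (by push_cast; ring))

/-- Euclid's lemma for sparse numbers, products over finite sets. -/
theorem euclid_set {m g N T : ℕ} {V : ℤ} (hgN : g ^ N = 2 ^ 2 ^ m) {ι : Type*} (I : Finset ι)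
    (x : ι → ℤ) (hx : ∀ i ∈ I, Sp g T V (x i)) (h : (2 : ℤ) ^ 2 ^ m + 1 ∣ ∏ i ∈ I, x i) :
    (∃ i ∈ I, (2 : ℤ) ^ 2 ^ m + 1 ∣ x i) ∨
      (2 : ℤ) ^ 2 ^ m ≤ (g * V) ^ (I.card * (2 * I.card + 1) ^ T) := by
  have hF : (1 : ℤ) < 2 ^ 2 ^ m + 1 := by
    have : (0 : ℤ) < 2 ^ 2 ^ m := by positivity
    linarith
  have h2 : (2 : ℤ) ^ 2 ^ m + 1 ∣ ∏ i : Fin I.card, x (I.equivFin.symm i) := by
    have e : ∏ i : Fin I.card, x (I.equivFin.symm i) = ∏ i ∈ I, x i := by
      rw [← Finset.prod_coe_sort I x]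
      exact Fintype.prod_equiv I.equivFin.symm _ _ fun i => rfl
    rwa [e]
  obtain ⟨i, hi⟩ := exists_large hF _ h2
  obtain ⟨S, u, a, b, c⟩ := hx _ (I.equivFin.symm i).2
  rcases gcd_fermat (Q := 2 * I.card + 1) (T := T) (U := V) S u (by omega) hgN a b with h3 | h3
  · left
    exact ⟨_, (I.equivFin.symm i).2, by rwa [c] at h3⟩
  · right
    rw [c] at h3
    exact euclid_of (by positivity) hi h3

/-- Euclid's lemma for two sparse numbers. -/
theorem euclid_two {m g N T : ℕ} {V : ℤ} (hgN : g ^ N = 2 ^ 2 ^ m) {x y : ℤ} (hx : Sp g T V x)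
    (hy : Sp g T V y) (h : (2 : ℤ) ^ 2 ^ m + 1 ∣ x * y) :
    (2 : ℤ) ^ 2 ^ m + 1 ∣ x ∨ (2 : ℤ) ^ 2 ^ m + 1 ∣ y ∨
      (2 : ℤ) ^ 2 ^ m ≤ (g * V) ^ (2 * 5 ^ T) := by
  have := euclid_set (T := T) (V := V) hgN (Finset.univ : Finset (Fin 2)) ![x, y]
    (by intro i _; fin_cases i <;> simpa) (by simpa using h)
  rcases this with ⟨i, -, hi⟩ | h1
  · fin_cases i
    · left; simpa using hi
    · right; left; simpa using hi
  · right; right
    simpa using h1

end Pool.Agent.K6.H31.RU
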